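import Pool.Agent.Helper26.IR.Maj

set_option autoImplicit false
set_option linter.unusedSectionVars false

/-! Blocks of parameters, and almost every wave vector. -/

open MeasureTheory Filter Topology
open Pool.Agent.Results.MP_54f242_pr.InfraredMean
open Pool.Agent.Helper33P

namespace Pool.Agent.Helper26.IR

variable {d : ℕ}

/-- a cofinal sequence of a bounded set -/
theorem exists_up (S : Set NNReal) (hne : S.Nonempty) (hb : BddAbove S) :
    ∃ v : ℕ → NNReal, (∀ n, v n ∈ S) ∧ ∀ p ∈ S, ∀ᶠ n in atTop, p ≤ v n := by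
  by_cases hmem : sSup S ∈ S
  · exact ⟨fun _ => sSup S, fun _ => hmem, fun p hp => Eventually.of_forall fun _ => le_csSup hb hp⟩
  · obtain ⟨u, _, _, hu3, hu4⟩ := (isLUB_csSup hne hb).exists_seq_monotone_tendsto hne
    refine ⟨u, hu4, fun p hp => ?_⟩
    have hlt : p < sSup S := lt_of_le_of_ne (le_csSup hb hp) (fun h => hmem (h ▸ hp))
    filter_upwards [hu3.eventually (lt_mem_nhds hlt)] with n hn using hn.le

theorem exists_down (S : Set NNReal) (hne : S.Nonempty) :
    ∃ v : ℕ → NNReal, (∀ n, v n ∈ S) ∧ ∀ p ∈ S, ∀ᶠ n in atTop, v n ≤ p := by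
  have hb : BddBelow S := OrderBot.bddBelow S
  by_cases hmem : sInf S ∈ S
  · exact ⟨fun _ => sInf S, fun _ => hmem, fun p hp => Eventually.of_forall fun _ => csInf_le hb hp⟩
  · obtain ⟨u, _, _, hu3, hu4⟩ := (isGLB_csInf hne hb).exists_seq_antitone_tendsto hne
    refine ⟨u, hu4, fun p hp => ?_⟩
    have hlt : sInf S < p := lt_of_le_of_ne (csInf_le hb hp) (fun h => hmem (h ▸ hp))
    filter_upwards [hu3.eventually (gt_mem_nhds hlt)] with n hn using hn.le

/-- the majorant of all the parameters with `i ≤ Ψ < i + 1` -/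
theorem block (i : ℕ) :
    ∃ W : (Fin d → ℝ) → ENNReal, Measurable W ∧
      (∀ (p : NNReal) (hp : p ≤ 1), Summable (tau d p hp) → (i : ℝ) ≤ Psi d p hp →
        Psi d p hp < i + 1 → ∀ k, ENNReal.ofReal (cs (tau d p hp) k) ≤ W k) ∧
      ∫⁻ k in cube d, W k ≤ ENNReal.ofReal ((2 * Real.pi) ^ d * 55) := by
  classical
  set S : Set NNReal := {p | ∃ hp : p ≤ 1, Summable (tau d p hp) ∧ (i : ℝ) ≤ Psi d p hp ∧
    Psi d p hp < i + 1} with hS
  rcases S.eq_empty_or_nonempty with hE | hne
  · refine ⟨fun _ => 0, measurable_const, ?_, by simp⟩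
    intro p hp hs h1 h2 k
    have : p ∈ S := ⟨hp, hs, h1, h2⟩
    rw [hE] at this
    exact absurd this (Set.notMem_empty p)
  have hbd : BddAbove S := ⟨1, fun p hp => hp.choose⟩
  obtain ⟨v, hv1, hv2⟩ := exists_up S hne hbd
  obtain ⟨u, hu1, hu2⟩ := exists_down S hne
  obtain ⟨p₁, hp₁⟩ := hne
  choose hv hvs hvi hvj using hv1
  choose hu hus hui huj using hu1
  have key : ∀ n, ∃ W : (Fin d → ℝ) → ℝ, Continuous W ∧ (∀ k, 0 ≤ W k) ∧
      (∀ (q : NNReal) (hq : q ≤ 1), u n ≤ q → q ≤ v n → ∀ k, cs (tau d q hq) k ≤ W k) ∧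
      ∫ k in cube d, W k ≤ (2 * Real.pi) ^ d * 55 := by
    intro n
    by_cases h : u n ≤ v n
    · obtain ⟨W, h1, h2, h3⟩ := majorant' (d := d) (u n) (v n) (hu n) h (hv n) (hvs n)
      refine ⟨W, h1, fun k => (hat_nonneg (v n) (hv n) (hvs n) k).trans
        (h2 _ (hv n) h le_rfl k), h2, h3.trans ?_⟩
      refine mul_le_mul_of_nonneg_left ?_ (by positivity)
      have h4 := hvj n
      have h5 := hui n
      linarith
    · refine ⟨fun _ => 0, continuous_const, fun _ => le_rfl, fun q hq h1 h2 => absurd (h1.trans h2) h, ?_⟩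
      simp only [integral_zero]
      positivity
  choose W hW1 hW0 hW2 hW3 using key
  refine ⟨fun k => liminf (fun n => ENNReal.ofReal (W n k)) atTop,
    .liminf fun n => (hW1 n).measurable.ennreal_ofReal, ?_, ?_⟩
  · intro p hp hs h1 h2 k
    have hpS : p ∈ S := ⟨hp, hs, h1, h2⟩
    refine le_liminf_of_le (by isBoundedDefault) ?_
    filter_upwards [hu2 p hpS, hv2 p hpS] with n hn1 hn2
    exact ENNReal.ofReal_le_ofReal (hW2 n p hp hn1 hn2 k)
  · refine (lintegral_liminf_le fun n => (hW1 n).measurable.ennreal_ofReal).trans ?_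
    refine liminf_le_of_le (by isBoundedDefault) fun b hb => ?_
    obtain ⟨n, hn⟩ := hb.exists
    refine hn.trans ?_
    rw [← ofReal_integral_eq_lintegral_ofReal (integrable_of_cont (hW1 n))
      (Eventually.of_forall (hW0 n))]
    exact ENNReal.ofReal_le_ofReal (hW3 n)

/-- the block `i` is exceptional for `k` at the level `A` -/
def Bad (d : ℕ) (k : Fin d → ℝ) (A : ℝ) (i : ℕ) : Prop :=
  ∃ (p : NNReal) (hp : p ≤ 1), Summable (tau d p hp) ∧ (i : ℝ) ≤ Psi d p hp ∧
    Psi d p hp < i + 1 ∧ A < (1 - Dhat k) * cs (tau d p hp) k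

theorem bad_le {W : (Fin d → ℝ) → ENNReal} {i : ℕ} (hW : ∀ (p : NNReal) (hp : p ≤ 1),
      Summable (tau d p hp) → (i : ℝ) ≤ Psi d p hp →
        Psi d p hp < i + 1 → ∀ k, ENNReal.ofReal (cs (tau d p hp) k) ≤ W k)
    {k : Fin d → ℝ} {A : ℝ} (h : Bad d k A i) : ENNReal.ofReal A ≤ 2 * W k := by
  obtain ⟨p, hp, hs, h1, h2, h3⟩ := h
  have h4 := hW p hp hs h1 h2 k
  have h5 : 0 ≤ cs (tau d p hp) k := hat_nonneg p hp hs k
  have h6 := (abs_le.1 (Dhat_le k)).1
  have h7 : A ≤ 2 * cs (tau d p hp) k := by nlinarith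
  calc ENNReal.ofReal A ≤ ENNReal.ofReal (2 * cs (tau d p hp) k) := ENNReal.ofReal_le_ofReal h7
    _ = 2 * ENNReal.ofReal (cs (tau d p hp) k) := by
        rw [ENNReal.ofReal_mul (by norm_num)]; simp
    _ ≤ 2 * W k := mul_le_mul_right h4 2

open Classical in
theorem ae_sum (b A : ℕ → ℝ) (hb : ∀ i, 0 ≤ b i) (hA : ∀ i, 0 < A i)
    (hsum : Summable fun i => b i / A i) :
    ∀ᵐ k : Fin d → ℝ, k ∈ cube d → Summable fun i => if Bad d k (A i) i then b i else 0 := by
  choose W hW1 hW2 hW3 using fun i => block (d := d) i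
  let c : ℕ → ENNReal := fun i => ENNReal.ofReal (b i / A i)
  have hVm : Measurable fun k : Fin d → ℝ => ∑' i, c i * W i k :=
    Measurable.tsum fun i => (hW1 i).const_mul _
  have hV : ∫⁻ k in cube d, ∑' i, c i * W i k < ⊤ := by
    rw [lintegral_tsum fun i => ((hW1 i).const_mul _).aemeasurable]
    have h1 : ∀ i : ℕ, ∫⁻ k in cube d, c i * W i k ≤
        ENNReal.ofReal (b i / A i * ((2 * Real.pi) ^ d * 55)) := by
      intro i
      rw [lintegral_const_mul _ (hW1 i)]
      refine (mul_le_mul_right (hW3 i) (c i)).trans ?_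
      simp only [c]
      rw [← ENNReal.ofReal_mul (div_nonneg (hb i) (hA i).le)]
    refine (ENNReal.tsum_le_tsum h1).trans_lt ?_
    rw [← ENNReal.ofReal_tsum_of_nonneg (fun i => mul_nonneg (div_nonneg (hb i) (hA i).le)
      (by positivity)) (hsum.mul_right _)]
    exact ENNReal.ofReal_lt_top
  have hae := ae_lt_top hVm hV.ne
  rw [ae_restrict_iff' cube_meas] at hae
  filter_upwards [hae] with k hk hkc
  have hk := hk hkc
  have h2 : ∀ i, ENNReal.ofReal (if Bad d k (A i) i then b i else 0) ≤ 2 * (c i * W i k) := by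
    intro i
    split_ifs with h
    · have h3 := bad_le (hW2 i) h
      have h4 : ENNReal.ofReal (b i) = c i * ENNReal.ofReal (A i) := by
        simp only [c]
        rw [← ENNReal.ofReal_mul (div_nonneg (hb i) (hA i).le), div_mul_cancel₀ _ (hA i).ne']
      rw [h4]
      calc c i * ENNReal.ofReal (A i) ≤ c i * (2 * W i k) := mul_le_mul_right h3 _
        _ = 2 * (c i * W i k) := by ring
    · simp
  have h5 : ∑' i, ENNReal.ofReal (if Bad d k (A i) i then b i else 0) ≠ ⊤ := by
    refine ne_top_of_le_ne_top ?_ (ENNReal.tsum_le_tsum h2)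
    rw [ENNReal.tsum_mul_left]
    exact ENNReal.mul_ne_top (by simp) hk.ne
  have h6 := ENNReal.summable_toReal h5
  refine h6.congr fun i => ?_
  rw [ENNReal.toReal_ofReal]
  split_ifs
  · exact hb i
  · exact le_rfl

open Classical in
/-- with a constant level: the proportion of the exceptional blocks -/
theorem ae_count : ∀ᵐ k : Fin d → ℝ, k ∈ cube d → ∃ C : ℝ, ∃ᶠ n : ℕ in atTop, ∀ A : ℝ, 0 < A →
    (((Finset.range n).filter fun i => Bad d k A i).card : ℝ) ≤ C / A * n := by
  choose W hW1 hW2 hW3 using fun i => block (d := d) i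
  let V : ℕ → (Fin d → ℝ) → ENNReal := fun n k => (∑ i ∈ Finset.range n, W i k) / n
  have hVm : ∀ n, Measurable (V n) := fun n =>
    (Finset.measurable_fun_sum _ fun i _ => hW1 i).div_const _
  have hVi : ∀ n, ∫⁻ k in cube d, V n k ≤ ENNReal.ofReal ((2 * Real.pi) ^ d * 55) := by
    intro n
    simp only [V, div_eq_mul_inv]
    rw [lintegral_mul_const _ (Finset.measurable_fun_sum _ fun i _ => hW1 i),
      lintegral_finsetSum _ fun i _ => hW1 i]
    refine (mul_le_mul_left (Finset.sum_le_sum fun i _ => hW3 i) _).trans ?_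
    rw [Finset.sum_const, Finset.card_range, nsmul_eq_mul]
    rcases Nat.eq_zero_or_pos n with h | h
    · subst h; simp
    · rw [mul_comm, ← mul_assoc, ENNReal.inv_mul_cancel (by exact_mod_cast h.ne') (by simp), one_mul]
  have hL : ∫⁻ k in cube d, liminf (fun n => V n k) atTop < ⊤ := by
    refine lt_of_le_of_lt ((lintegral_liminf_le hVm).trans ?_)
      (ENNReal.ofReal_lt_top (r := (2 * Real.pi) ^ d * 55))
    refine liminf_le_of_le (by isBoundedDefault) fun b hb => ?_
    obtain ⟨n, hn⟩ := hb.exists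
    exact hn.trans (hVi n)
  have hae := ae_lt_top (.liminf hVm) hL.ne
  rw [ae_restrict_iff' cube_meas] at hae
  filter_upwards [hae] with k hk hkc
  have hk := hk hkc
  obtain ⟨C, hC1, hC2⟩ := ENNReal.lt_iff_exists_nnreal_btwn.1 hk
  have hfr : ∃ᶠ n in atTop, V n k < C := frequently_lt_of_liminf_lt (by isBoundedDefault) hC1
  refine ⟨2 * C, (hfr.and_eventually (eventually_gt_atTop 0)).mono fun n hn A hA => ?_⟩
  obtain ⟨hn, hn0⟩ := hn
  have h1 : ∑ i ∈ Finset.range n, W i k ≤ C * n := by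
    have h2 : (∑ i ∈ Finset.range n, W i k) / n ≤ C := hn.le
    rwa [ENNReal.div_le_iff (by exact_mod_cast hn0.ne') (by simp)] at h2
  have h3 : ENNReal.ofReal A * (((Finset.range n).filter fun i => Bad d k A i).card : ENNReal) ≤
      2 * (C * n) := by
    calc ENNReal.ofReal A * (((Finset.range n).filter fun i => Bad d k A i).card : ENNReal)
        = ∑ i ∈ (Finset.range n).filter fun i => Bad d k A i, ENNReal.ofReal A := by
          rw [Finset.sum_const, nsmul_eq_mul, mul_comm]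
      _ ≤ ∑ i ∈ (Finset.range n).filter fun i => Bad d k A i, 2 * W i k :=
          Finset.sum_le_sum fun i hi => bad_le (hW2 i) (Finset.mem_filter.1 hi).2
      _ ≤ ∑ i ∈ Finset.range n, 2 * W i k :=
          Finset.sum_le_sum_of_subset (Finset.filter_subset _ _)
      _ = 2 * ∑ i ∈ Finset.range n, W i k := by rw [Finset.mul_sum]
      _ ≤ _ := mul_le_mul_right h1 2
  have h4 : ENNReal.ofReal (A * (((Finset.range n).filter fun i => Bad d k A i).card : ℝ)) ≤
      ENNReal.ofReal (2 * (C * n)) := by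
    rw [ENNReal.ofReal_mul hA.le, ENNReal.ofReal_natCast]
    refine h3.trans (le_of_eq ?_)
    rw [ENNReal.ofReal_mul (by norm_num), ENNReal.ofReal_mul (NNReal.coe_nonneg C),
      ENNReal.ofReal_coe_nnreal, ENNReal.ofReal_natCast]
    simp
  have h5 : A * (((Finset.range n).filter fun i => Bad d k A i).card : ℝ) ≤ 2 * (C * n) :=
    (ENNReal.ofReal_le_ofReal_iff (by positivity)).1 h4
  rw [div_mul_eq_mul_div, le_div_iff₀ hA]
  linarith

end Pool.Agent.Helper26.IR
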