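import Pool.Agent.Helper26.IR.Ae

set_option autoImplicit false
set_option linter.unusedSectionVars false

/-! All the parameters, almost every wave vector. -/

open MeasureTheory Filter Topology
open Pool.Agent.Results.MP_54f242_pr.InfraredMean
open Pool.Agent.Helper33P

namespace Pool.Agent.Helper26.IR

variable {d : ℕ}

theorem ae_all (A : ℕ → ℝ) (hA : ∀ i, 0 < A i) (hsum : Summable fun i => 1 / A i) :
    ∀ᵐ k : Fin d → ℝ, k ∈ cube d → ∃ C : ℝ, ∀ (p : NNReal) (hp : p ≤ 1),
      Summable (tau d p hp) → (1 - Dhat k) * cs (tau d p hp) k ≤ C * A ⌊Psi d p hp⌋₊ := by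
  choose W hW1 hW2 hW3 using fun i => block (d := d) i
  let c : ℕ → ENNReal := fun i => ENNReal.ofReal (1 / A i)
  have hVm : Measurable fun k : Fin d → ℝ => ∑' i, c i * W i k :=
    Measurable.tsum fun i => (hW1 i).const_mul _
  have hV : ∫⁻ k in cube d, ∑' i, c i * W i k < ⊤ := by
    rw [lintegral_tsum fun i => ((hW1 i).const_mul _).aemeasurable]
    have h1 : ∀ i : ℕ, ∫⁻ k in cube d, c i * W i k ≤
        ENNReal.ofReal (1 / A i * ((2 * Real.pi) ^ d * 55)) := by
      intro i
      rw [lintegral_const_mul _ (hW1 i)]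
      refine (mul_le_mul_right (hW3 i) (c i)).trans ?_
      simp only [c]
      rw [← ENNReal.ofReal_mul (by have := hA i; positivity)]
    refine (ENNReal.tsum_le_tsum h1).trans_lt ?_
    rw [← ENNReal.ofReal_tsum_of_nonneg (fun i => by have := hA i; positivity) (hsum.mul_right _)]
    exact ENNReal.ofReal_lt_top
  have hae := ae_lt_top hVm hV.ne
  rw [ae_restrict_iff' cube_meas] at hae
  filter_upwards [hae] with k hk hkc
  have hk := hk hkc
  set V := ∑' i, c i * W i k with hVdef
  refine ⟨2 * V.toReal, fun p hp hs => ?_⟩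
  set i := ⌊Psi d p hp⌋₊ with hi
  have h1 := one_le_Psi p hp hs
  have h2 : (i : ℝ) ≤ Psi d p hp := Nat.floor_le (by linarith)
  have h3 : Psi d p hp < i + 1 := Nat.lt_floor_add_one _
  have h4 := hW2 i p hp hs h2 h3 k
  have h5 : 0 ≤ cs (tau d p hp) k := hat_nonneg p hp hs k
  have h6 : c i * ENNReal.ofReal (cs (tau d p hp) k) ≤ V :=
    (mul_le_mul_right h4 (c i)).trans (ENNReal.le_tsum i)
  have h7 : 1 / A i * cs (tau d p hp) k ≤ V.toReal := by
    simp only [c] at h6
    rw [← ENNReal.ofReal_mul (by have := hA i; positivity)] at h6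
    exact (ENNReal.ofReal_le_iff_le_toReal hk.ne).1 h6
  have h8 : cs (tau d p hp) k ≤ V.toReal * A i := by
    rw [one_div, inv_mul_eq_div, div_le_iff₀ (hA i)] at h7
    exact h7
  have h9 := (abs_le.1 (Dhat_le k)).1
  nlinarith

end Pool.Agent.Helper26.IR
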