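import Pool.Agent.Helper33P.Main

set_option autoImplicit false
set_option linter.unusedSectionVars false

/-! The maximal inequality of Rademacher and Menshov for the sets of a chain between two of them. -/

open MeasureTheory Filter Topology
open Pool.Agent.Results.MP_54f242_pr.InfraredMean
open Pool.Agent.Helper33P

namespace Pool.Agent.Helper26.IR

variable {d : ℕ}

theorem int_sq' (L : ℕ) (S : ℕ → Finset (Fin d → ℤ)) (hS : Monotone S) :
    ∫ k in cube d, sq L S k ≤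
      L * ((2 * Real.pi) ^ d * (((S (2 ^ L)).card : ℝ) - (S 0).card)) := by
  induction L generalizing S with
  | zero => simp [Helper33P.sq, SS]
  | succ L ih =>
    have h0 := ih (fun i => S (2 * i)) (fun i j hij => hS (by omega))
    have he : ∀ k, sq (L + 1) S k = (∑ i ∈ Finset.range (2 ^ (L + 1)), ft (S (i + 1) \ S i) k) +
        sq L (fun i => S (2 * i)) k := by
      intro k
      have h1 : ∀ i, ft (S (i + 1) \ S i) k =
          (fc (S (i + 1)) k - fc (S i) k) ^ 2 + (fs (S (i + 1)) k - fs (S i) k) ^ 2 := by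
        intro i
        rw [fc_sdiff (hS (Nat.le_succ i)), fs_sdiff (hS (Nat.le_succ i))]
        rfl
      simp_rw [h1]
      unfold Helper33P.sq
      simp only [SS]
      rw [Finset.sum_add_distrib]
      ring
    simp_rw [he]
    rw [integral_add (integrable_finsetSum _ fun i _ => integrable_of_cont (ft_cont _))
      (integrable_of_cont (sq_cont _ _)),
      integral_finsetSum _ fun i _ => integrable_of_cont (ft_cont _)]
    simp_rw [int_ft]
    have h3 : ∀ n : ℕ, ∑ i ∈ Finset.range n, ((S (i + 1) \ S i).card : ℝ) =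
        (S n).card - (S 0).card := by
      intro n
      induction n with
      | zero => simp
      | succ n ihn =>
        rw [Finset.sum_range_succ, ihn]
        have h4 : ((S (n + 1)).card : ℝ) = (S (n + 1) \ S n).card + (S n).card := by
          rw [← Nat.cast_add, Finset.card_sdiff_add_card_eq_card (hS (Nat.le_succ n))]
        linarith
    rw [← Finset.mul_sum, h3]
    have h5 : 2 * 2 ^ L = 2 ^ (L + 1) := by rw [pow_succ]; ring
    simp only [h5, mul_zero] at h0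
    push_cast
    linarith

/-- `∑_{m ≤ s} (1 + [log₂ m])² / m` -/
noncomputable def psi (s : ℕ) : ℝ :=
  ∑ m ∈ Finset.range s, (1 + (Nat.log 2 (m + 1) : ℝ)) ^ 2 / ((m : ℝ) + 1)

theorem psi_mono : Monotone psi := by
  intro a b h
  unfold psi
  exact Finset.sum_le_sum_of_subset_of_nonneg (Finset.range_mono h) fun m _ _ => by positivity

theorem psi_nonneg (s : ℕ) : 0 ≤ psi s := Finset.sum_nonneg fun m _ => by positivity

theorem psi_one : psi 1 = 1 := by simp [psi]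

theorem psi_sub (a b : ℕ) (h : a ≤ b) (hb : 0 < b) :
    ((b : ℝ) - a) * (1 + (Nat.log 2 a : ℝ)) ^ 2 / b ≤ psi b - psi a := by
  unfold psi
  rw [← Finset.sum_Ico_eq_sub _ h]
  have hb' : (0 : ℝ) < b := by exact_mod_cast hb
  have h1 : ∀ m ∈ Finset.Ico a b, (1 + (Nat.log 2 a : ℝ)) ^ 2 / b ≤
      (1 + (Nat.log 2 (m + 1) : ℝ)) ^ 2 / ((m : ℝ) + 1) := by
    intro m hm
    rw [Finset.mem_Ico] at hm
    have h2 : (Nat.log 2 a : ℝ) ≤ Nat.log 2 (m + 1) := by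
      exact_mod_cast Nat.log_mono_right (by omega)
    have h3 : (m : ℝ) + 1 ≤ b := by exact_mod_cast hm.2
    have h4 : (0 : ℝ) ≤ Nat.log 2 a := Nat.cast_nonneg _
    exact div_le_div₀ (by positivity) (pow_le_pow_left₀ (by positivity) (by linarith) 2)
      (by positivity) h3
  have h2 := Finset.card_nsmul_le_sum _ _ _ h1
  rw [Nat.card_Ico, nsmul_eq_mul, Nat.cast_sub h] at h2
  calc ((b : ℝ) - a) * (1 + (Nat.log 2 a : ℝ)) ^ 2 / b
      = ((b : ℝ) - a) * ((1 + (Nat.log 2 a : ℝ)) ^ 2 / b) := by ring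
    _ ≤ _ := h2

theorem term_le (m : ℕ) : (1 + (Nat.log 2 (m + 1) : ℝ)) ^ 2 / ((m : ℝ) + 1) ≤ 9 := by
  have h1 := cube_two (Nat.log 2 (m + 1))
  have h2 : 2 ^ Nat.log 2 (m + 1) ≤ m + 1 := Nat.pow_log_le_self 2 (by omega)
  have h3 : (1 + Nat.log 2 (m + 1)) ^ 2 ≤ (1 + Nat.log 2 (m + 1)) ^ 3 :=
    Nat.pow_le_pow_right (by omega) (by norm_num)
  have h4 : (1 + Nat.log 2 (m + 1)) ^ 2 ≤ 9 * (m + 1) := by omega
  rw [div_le_iff₀ (by positivity)]
  exact_mod_cast h4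

theorem psi_le (s : ℕ) : psi s ≤ 9 * s := by
  unfold psi
  refine (Finset.sum_le_sum fun m _ => term_le m).trans ?_
  rw [Finset.sum_const, Finset.card_range, nsmul_eq_mul]
  linarith

theorem psi_le' (s : ℕ) : psi s ≤ 2 * (1 + (Nat.log 2 s : ℝ)) ^ 3 := by
  have h1 : psi s ≤ (1 + (Nat.log 2 s : ℝ)) ^ 2 * ∑ m ∈ Finset.range s, 1 / ((m : ℝ) + 1) := by
    unfold psi
    rw [Finset.mul_sum]
    refine Finset.sum_le_sum fun m hm => ?_
    rw [Finset.mem_range] at hm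
    have h2 : (Nat.log 2 (m + 1) : ℝ) ≤ Nat.log 2 s := by
      exact_mod_cast Nat.log_mono_right (by omega)
    rw [mul_one_div]
    refine div_le_div_of_nonneg_right (pow_le_pow_left₀ (by positivity) (by linarith) 2)
      (by positivity)
  have h2 : ∑ m ∈ Finset.range s, 1 / ((m : ℝ) + 1) ≤ 2 * (1 + (Nat.log 2 s : ℝ)) := by
    have h3 := harmonic_le_one_add_log s
    have h4 : ((harmonic s : ℚ) : ℝ) = ∑ m ∈ Finset.range s, 1 / ((m : ℝ) + 1) := by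
      simp [harmonic]
    rw [h4] at h3
    refine h3.trans ?_
    rcases Nat.eq_zero_or_pos s with h0 | h0
    · subst h0; simp
    · have h5 : s < 2 ^ (Nat.log 2 s + 1) := Nat.lt_pow_succ_log_self (by norm_num) s
      have h6 : (s : ℝ) ≤ 2 ^ (Nat.log 2 s + 1) := by exact_mod_cast h5.le
      have h7 : Real.log s ≤ (Nat.log 2 s + 1 : ℕ) * Real.log 2 := by
        rw [← Real.log_pow]
        exact Real.log_le_log (by exact_mod_cast h0) h6
      have h8 : Real.log 2 ≤ 1 := by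
        have := Real.log_two_lt_d9; linarith
      have h9 : (0 : ℝ) ≤ ((Nat.log 2 s + 1 : ℕ) : ℝ) := Nat.cast_nonneg _
      have h10 := mul_le_mul_of_nonneg_left h8 h9
      push_cast at h7 h10
      linarith [(Nat.cast_nonneg (Nat.log 2 s) : (0 : ℝ) ≤ _)]
  calc psi s ≤ (1 + (Nat.log 2 s : ℝ)) ^ 2 * ∑ m ∈ Finset.range s, 1 / ((m : ℝ) + 1) := h1
    _ ≤ (1 + (Nat.log 2 s : ℝ)) ^ 2 * (2 * (1 + (Nat.log 2 s : ℝ))) :=
        mul_le_mul_of_nonneg_left h2 (by positivity)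
    _ = _ := by ring

variable {τ : Type*} [LinearOrder τ] {M : Finset τ} {B : τ → Finset (Fin d → ℤ)}

/-- the sets of the chain with sizes from `s₀ 2^i` to `s₀ 2^(i+1)` -/
noncomputable def Sb (M : Finset τ) (B : τ → Finset (Fin d → ℤ)) (s₀ i m : ℕ) :
    Finset (Fin d → ℤ) := T M B (2 ^ i * s₀ + min m (2 ^ i * s₀))

theorem Sb_mono (s₀ i : ℕ) : Monotone (Sb M B s₀ i) := by
  intro m m' h
  exact T_mono (by omega)

/-- one term of the majorant -/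
noncomputable def tb (M : Finset τ) (B : τ → Finset (Fin d → ℤ)) (s₀ i : ℕ)
    (k : Fin d → ℝ) : ℝ :=
  (2 * ft (Sb M B s₀ i 0) k + 2 * (((Nat.log 2 s₀ + i + 1 : ℕ) : ℝ) *
    sq (Nat.log 2 s₀ + i + 1) (Sb M B s₀ i) k)) / ((2 ^ i * s₀ : ℕ) : ℝ)

/-- the majorant of `|Ŝ|² / |S|` between two sets of the chain -/
noncomputable def gb (M : Finset τ) (B : τ → Finset (Fin d → ℤ)) (s₀ s₁ : ℕ)
    (k : Fin d → ℝ) : ℝ :=
  ∑ i ∈ Finset.range (Nat.log 2 (s₁ / s₀) + 1), tb M B s₀ i k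

theorem tb_cont (s₀ i : ℕ) : Continuous (tb M B s₀ i) := by
  unfold tb
  have h1 := ft_cont (Sb M B s₀ i 0)
  have h2 := sq_cont (Nat.log 2 s₀ + i + 1) (Sb M B s₀ i)
  fun_prop

theorem gb_cont (s₀ s₁ : ℕ) : Continuous (gb M B s₀ s₁) :=
  continuous_finsetSum _ fun _ _ => tb_cont _ _

theorem tb_nonneg (s₀ i : ℕ) (k : Fin d → ℝ) : 0 ≤ tb M B s₀ i k := by
  unfold tb
  have h1 := ft_nonneg (Sb M B s₀ i 0) k
  have h2 := sq_nonneg' (Nat.log 2 s₀ + i + 1) (Sb M B s₀ i) k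
  positivity

theorem pow_gt (s₀ i : ℕ) : 2 ^ i * s₀ < 2 ^ (Nat.log 2 s₀ + i + 1) := by
  have h1 : s₀ < 2 ^ (Nat.log 2 s₀ + 1) := Nat.lt_pow_succ_log_self (by norm_num) s₀
  calc 2 ^ i * s₀ < 2 ^ i * 2 ^ (Nat.log 2 s₀ + 1) := Nat.mul_lt_mul_of_pos_left h1 (by positivity)
    _ = 2 ^ (Nat.log 2 s₀ + i + 1) := by rw [← pow_add]; congr 1; omega

theorem le_gb (hB : Monotone B) {t₀ t₁ t : τ} (ht : t ∈ M) (h0 : t₀ ≤ t) (h1 : t ≤ t₁)
    (hs : (B t₀).card ≠ 0) (k : Fin d → ℝ) :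
    ft (B t) k / (B t).card ≤ gb M B (B t₀).card (B t₁).card k := by
  set s₀ := (B t₀).card with hs0
  set s₁ := (B t₁).card with hs1
  set s := (B t).card with hss
  have hle0 : s₀ ≤ s := Finset.card_le_card (hB h0)
  have hle1 : s ≤ s₁ := Finset.card_le_card (hB h1)
  have hpos : 0 < s₀ := Nat.pos_of_ne_zero hs
  set i := Nat.log 2 (s / s₀) with hi
  have hq : s / s₀ ≠ 0 := by
    have := (Nat.one_le_div_iff hpos).2 hle0
    omega
  have h2 : 2 ^ i ≤ s / s₀ := Nat.pow_log_le_self 2 hq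
  have h3 : s / s₀ < 2 ^ (i + 1) := Nat.lt_pow_succ_log_self (by norm_num) _
  have h4 : 2 ^ i * s₀ ≤ s := (Nat.le_div_iff_mul_le hpos).1 h2
  have h5 : s < 2 ^ (i + 1) * s₀ := (Nat.div_lt_iff_lt_mul hpos).1 h3
  obtain ⟨m, hm⟩ := Nat.exists_eq_add_of_le h4
  have h6 : m < 2 ^ i * s₀ := by
    have : 2 ^ (i + 1) * s₀ = 2 ^ i * s₀ + 2 ^ i * s₀ := by ring
    omega
  have h7 : Sb M B s₀ i m = B t := by
    unfold Sb
    rw [min_eq_left h6.le, ← hm, hss, T_eq hB ht]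
  have h8 := ft_le (Nat.log 2 s₀ + i + 1) (Sb M B s₀ i) k m (h6.trans (pow_gt s₀ i))
  rw [h7] at h8
  have hp : (0 : ℝ) < ((2 ^ i * s₀ : ℕ) : ℝ) :=
    Nat.cast_pos.2 (Nat.mul_pos (Nat.pow_pos (by norm_num)) hpos)
  have h9 : ft (B t) k / s ≤ ft (B t) k / ((2 ^ i * s₀ : ℕ) : ℝ) := by
    refine div_le_div_of_nonneg_left (ft_nonneg _ _) hp ?_
    exact_mod_cast h4
  have h10 : ft (B t) k / ((2 ^ i * s₀ : ℕ) : ℝ) ≤ tb M B s₀ i k :=
    div_le_div_of_nonneg_right h8 hp.le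
  refine h9.trans (h10.trans ?_)
  unfold gb
  refine Finset.single_le_sum (f := fun i : ℕ => tb M B s₀ i k)
    (fun j _ => tb_nonneg _ _ _) (Finset.mem_range.2 (Nat.lt_succ_of_le ?_))
  exact Nat.log_mono_right (Nat.div_le_div_right hle1)

theorem T_sub (hB : Monotone B) {t₁ : τ} (h : ∀ t ∈ M, t ≤ t₁) (s : ℕ) : T M B s ⊆ B t₁ := by
  classical
  unfold T
  rw [Finset.biUnion_subset]
  intro u hu
  exact hB (h u (Finset.mem_filter.1 hu).1)

theorem int_tb (s₀ i : ℕ) :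
    ∫ k in cube d, tb M B s₀ i k ≤ (2 * Real.pi) ^ d *
      ((2 * (Sb M B s₀ i 0).card + 2 * ((Nat.log 2 s₀ + i + 1 : ℕ) : ℝ) ^ 2 *
        (((Sb M B s₀ i (2 ^ (Nat.log 2 s₀ + i + 1))).card : ℝ) - (Sb M B s₀ i 0).card)) /
          ((2 ^ i * s₀ : ℕ) : ℝ)) := by
  unfold tb
  have h1 := ft_cont (Sb M B s₀ i 0)
  have h2 := sq_cont (Nat.log 2 s₀ + i + 1) (Sb M B s₀ i)
  rw [integral_div, integral_add (integrable_of_cont (by fun_prop))
    (integrable_of_cont (by fun_prop)), integral_const_mul, integral_const_mul,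
    integral_const_mul, int_ft, ← mul_div_assoc]
  refine div_le_div_of_nonneg_right ?_ (Nat.cast_nonneg _)
  have h3 := int_sq' (Nat.log 2 s₀ + i + 1) (Sb M B s₀ i) (Sb_mono _ _)
  have h4 := mul_le_mul_of_nonneg_left h3
    (Nat.cast_nonneg (Nat.log 2 s₀ + i + 1) : (0 : ℝ) ≤ ((Nat.log 2 s₀ + i + 1 : ℕ) : ℝ))
  nlinarith [h4]

theorem int_gb (hB : Monotone B) {t₀ t₁ : τ} (ht : t₀ ∈ M) (h0 : t₀ ≤ t₁)
    (h1 : ∀ t ∈ M, t ≤ t₁) (hs : (B t₀).card ≠ 0) :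
    ∫ k in cube d, gb M B (B t₀).card (B t₁).card k ≤ (2 * Real.pi) ^ d *
      (2 + 52 * (psi (B t₁).card - psi (B t₀).card)) := by
  set s₀ := (B t₀).card with hs0
  set s₁ := (B t₁).card with hs1
  have hle : s₀ ≤ s₁ := Finset.card_le_card (hB h0)
  have hpos : 0 < s₀ := Nat.pos_of_ne_zero hs
  have hpi : (0 : ℝ) < (2 * Real.pi) ^ d := by positivity
  have hs0r : (0 : ℝ) < s₀ := by exact_mod_cast hpos
  unfold gb
  rw [integral_finsetSum _ fun i _ => integrable_of_cont (tb_cont _ _), Finset.sum_range_succ']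
  set I := Nat.log 2 (s₁ / s₀) with hI
  have hq : s₁ / s₀ ≠ 0 := by
    have := (Nat.one_le_div_iff hpos).2 hle
    omega
  have hI2 : 2 ^ I * s₀ ≤ s₁ := (Nat.le_div_iff_mul_le hpos).1 (Nat.pow_log_le_self 2 hq)
  -- the first term
  have hA : ∫ k in cube d, tb M B s₀ 0 k ≤ (2 * Real.pi) ^ d * (2 + 4 * (psi s₁ - psi s₀)) := by
    refine (int_tb s₀ 0).trans (mul_le_mul_of_nonneg_left ?_ hpi.le)
    have e0 : Sb M B s₀ 0 0 = B t₀ := by
      unfold Sb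
      simp only [pow_zero, one_mul, Nat.zero_min, add_zero]
      rw [hs0, T_eq hB ht]
    set b := (Sb M B s₀ 0 (2 ^ (Nat.log 2 s₀ + 0 + 1))).card with hb
    have hb1 : b ≤ s₁ := Finset.card_le_card (T_sub hB h1 _)
    have hb2 : b ≤ 2 * s₀ := (T_card hB _).trans (by simp only [pow_zero, one_mul]; omega)
    have hb3 : s₀ ≤ b := by
      have := Finset.card_le_card (Sb_mono (M := M) (B := B) s₀ 0
        (Nat.zero_le (2 ^ (Nat.log 2 s₀ + 0 + 1))))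
      rw [e0] at this
      exact this
    have h2 := psi_sub s₀ b hb3 (by omega)
    have h3 : psi b ≤ psi s₁ := psi_mono hb1
    rw [e0, ← hs0]
    have hbr : (0 : ℝ) < b := by exact_mod_cast (by omega : 0 < b)
    have hb2r : (b : ℝ) ≤ 2 * s₀ := by exact_mod_cast hb2
    have hb3r : (s₀ : ℝ) ≤ b := by exact_mod_cast hb3
    set L : ℝ := (1 + (Nat.log 2 s₀ : ℝ)) ^ 2 with hL
    have hL0 : 0 ≤ L := by positivity
    have hLL : ((Nat.log 2 s₀ + 0 + 1 : ℕ) : ℝ) ^ 2 = L := by rw [hL]; push_cast; ring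
    rw [hLL]
    have h4 : ((b : ℝ) - s₀) * L / (2 * s₀) ≤ ((b : ℝ) - s₀) * L / b :=
      div_le_div_of_nonneg_left (mul_nonneg (by linarith) hL0) hbr hb2r
    have h5 : (2 * (s₀ : ℝ) + 2 * L * ((b : ℝ) - s₀)) / ((2 ^ 0 * s₀ : ℕ) : ℝ) =
        2 + 4 * (((b : ℝ) - s₀) * L / (2 * s₀)) := by
      push_cast
      field_simp
      ring
    rw [h5]
    linarith
  have hB' : ∀ i, i < I → ∫ k in cube d, tb M B s₀ (i + 1) k ≤ (2 * Real.pi) ^ d *
      (48 * (psi (2 ^ (i + 1) * s₀) - psi (2 ^ i * s₀))) := by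
    intro i hi
    refine (int_tb s₀ (i + 1)).trans (mul_le_mul_of_nonneg_left ?_ hpi.le)
    have hp : (0 : ℝ) < ((2 ^ (i + 1) * s₀ : ℕ) : ℝ) :=
      Nat.cast_pos.2 (Nat.mul_pos (Nat.pow_pos (by norm_num)) hpos)
    set c := (Sb M B s₀ (i + 1) 0).card with hc
    set b := (Sb M B s₀ (i + 1) (2 ^ (Nat.log 2 s₀ + (i + 1) + 1))).card with hb
    have hc1 : c ≤ 2 ^ (i + 1) * s₀ := (T_card hB _).trans (by simp)
    have hb1 : b ≤ 2 * (2 ^ (i + 1) * s₀) := (T_card hB _).trans (by omega)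
    have hc1r : (c : ℝ) ≤ ((2 ^ (i + 1) * s₀ : ℕ) : ℝ) := by exact_mod_cast hc1
    have hb1r : (b : ℝ) ≤ 2 * ((2 ^ (i + 1) * s₀ : ℕ) : ℝ) := by exact_mod_cast hb1
    have hc0 : (0 : ℝ) ≤ c := Nat.cast_nonneg _
    set ℓ : ℝ := ((Nat.log 2 s₀ + i + 1 : ℕ) : ℝ) with hℓ
    have hℓ1 : 1 ≤ ℓ := by rw [hℓ]; exact_mod_cast (by omega : 1 ≤ Nat.log 2 s₀ + i + 1)
    have hL1 : ((Nat.log 2 s₀ + (i + 1) + 1 : ℕ) : ℝ) = ℓ + 1 := by rw [hℓ]; push_cast; ring
    rw [hL1, div_le_iff₀ hp]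
    have h2 := psi_sub (2 ^ i * s₀) (2 ^ (i + 1) * s₀)
      (Nat.mul_le_mul_right _ (Nat.pow_le_pow_right (by norm_num) (by omega))) (by positivity)
    have h3 : ℓ ≤ 1 + (Nat.log 2 (2 ^ i * s₀) : ℝ) := by
      have h4 : Nat.log 2 s₀ + i ≤ Nat.log 2 (2 ^ i * s₀) := by
        refine Nat.le_log_of_pow_le (by norm_num) ?_
        rw [pow_add, mul_comm]
        exact Nat.mul_le_mul_left _ (Nat.pow_log_le_self 2 hs)
      have h5 : ((Nat.log 2 s₀ + i : ℕ) : ℝ) ≤ (Nat.log 2 (2 ^ i * s₀) : ℝ) := by exact_mod_cast h4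
      rw [hℓ]
      push_cast at h5 ⊢
      linarith
    have h4 : ℓ ^ 2 / 2 ≤ psi (2 ^ (i + 1) * s₀) - psi (2 ^ i * s₀) := by
      refine le_trans ?_ h2
      have h5 : (((2 ^ (i + 1) * s₀ : ℕ) : ℝ) - ((2 ^ i * s₀ : ℕ) : ℝ)) =
          ((2 ^ (i + 1) * s₀ : ℕ) : ℝ) / 2 := by
        push_cast
        ring
      have h6 := pow_le_pow_left₀ (by linarith : 0 ≤ ℓ) h3 2
      have h7 : ∀ X A : ℝ, 0 < X → X / 2 * A / X = A / 2 := by
        intro X A hX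
        field_simp
      rw [h5, h7 _ _ hp]
      linarith
    have h5 : (ℓ + 1) ^ 2 ≤ 4 * ℓ ^ 2 := by nlinarith
    have h6 : (0 : ℝ) ≤ (ℓ + 1) ^ 2 := by positivity
    have h7 : 2 * (ℓ + 1) ^ 2 * ((b : ℝ) - c) ≤
        2 * (ℓ + 1) ^ 2 * (2 * ((2 ^ (i + 1) * s₀ : ℕ) : ℝ)) :=
      mul_le_mul_of_nonneg_left (by linarith) (by positivity)
    have h8 : 2 + 4 * (ℓ + 1) ^ 2 ≤ 48 * (psi (2 ^ (i + 1) * s₀) - psi (2 ^ i * s₀)) := by
      nlinarith
    calc 2 * (c : ℝ) + 2 * (ℓ + 1) ^ 2 * ((b : ℝ) - c)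
        ≤ (2 + 4 * (ℓ + 1) ^ 2) * ((2 ^ (i + 1) * s₀ : ℕ) : ℝ) := by nlinarith
      _ ≤ _ := mul_le_mul_of_nonneg_right h8 hp.le
  have hsum : ∑ i ∈ Finset.range I, ∫ k in cube d, tb M B s₀ (i + 1) k ≤
      (2 * Real.pi) ^ d * (48 * (psi s₁ - psi s₀)) := by
    refine (Finset.sum_le_sum fun i hi => hB' i (Finset.mem_range.1 hi)).trans ?_
    rw [← Finset.mul_sum, ← Finset.mul_sum]
    refine mul_le_mul_of_nonneg_left (mul_le_mul_of_nonneg_left ?_ (by norm_num)) hpi.le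
    rw [Finset.sum_range_sub (fun i => psi (2 ^ i * s₀))]
    have := psi_mono hI2
    simp only [pow_zero, one_mul]
    linarith
  calc (∑ i ∈ Finset.range I, ∫ k in cube d, tb M B s₀ (i + 1) k) + ∫ k in cube d, tb M B s₀ 0 k
      ≤ (2 * Real.pi) ^ d * (48 * (psi s₁ - psi s₀)) +
        (2 * Real.pi) ^ d * (2 + 4 * (psi s₁ - psi s₀)) := add_le_add hsum hA
    _ = _ := by ring

end Pool.Agent.Helper26.IR
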