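import Pool.Agent.Helper26.IR.Prob

set_option autoImplicit false
set_option linter.unusedSectionVars false

/-! The mean over a box of a function of the size of the part in the box of the cluster. -/

open MeasureTheory Filter Topology
open Pool.Agent.Results.MP_54f242_pr.InfraredMean
open Pool.Agent.Helper33P

namespace Pool.Agent.Helper26.IR

variable {d : ℕ}

/-- the number of the points `y` of `Λ` for which `y - x` is in the cluster of `0` -/
noncomputable def cn (ω : (Fin d → ℤ) × Fin d → Bool) (Λ : Finset (Fin d → ℤ))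
    (x : Fin d → ℤ) : ℕ := (cl Λ (fun a y => (opn ω).Reachable 0 (y - a)) x).card

theorem cn_sum (ω : (Fin d → ℤ) × Fin d → Bool) (Λ : Finset (Fin d → ℤ)) (x : Fin d → ℤ) :
    (cn ω Λ x : ENNReal) = ∑ y ∈ Λ, Set.indicator {ω : (Fin d → ℤ) × Fin d → Bool |
      (opn ω).Reachable 0 (y - x)} (fun _ => (1 : ENNReal)) ω := by
  classical
  unfold cn cl
  rw [Finset.card_filter]
  push_cast
  refine Finset.sum_congr rfl fun y _ => ?_
  simp only [Set.indicator_apply, Set.mem_ofPred_eq]

theorem cn_meas (Λ : Finset (Fin d → ℤ)) (x : Fin d → ℤ) :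
    Measurable fun ω : (Fin d → ℤ) × Fin d → Bool => cn ω Λ x := by
  classical
  have : (fun ω : (Fin d → ℤ) × Fin d → Bool => cn ω Λ x) =
      fun ω => ∑ y ∈ Λ, if (opn ω).Reachable 0 (y - x) then 1 else 0 := by
    funext ω
    unfold cn cl
    rw [Finset.card_filter]
  rw [this]
  refine Finset.measurable_fun_sum _ fun y _ => ?_
  exact Measurable.ite (meas_reach 0 (y - x)) measurable_const measurable_const

theorem reach_sh (u : Fin d → ℤ) (ω : (Fin d → ℤ) × Fin d → Bool) (a b : Fin d → ℤ) :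
    (opn (fun e => ω (sh u e))).Reachable a b ↔ (opn ω).Reachable (a + u) (b + u) := by
  have hadj : ∀ a b, (opn (fun e => ω (sh u e))).Adj a b ↔ (opn ω).Adj (a + u) (b + u) := by
    intro a b
    have e1 : ∀ (i : Fin d) (x y : Fin d → ℤ),
        (y + u = x + u + Pi.single i (1 : ℤ)) ↔ (y = x + Pi.single i (1 : ℤ)) := by
      intro i x y
      rw [add_right_comm, add_left_inj]
    simp only [opn, SimpleGraph.fromRel_adj, sh, e1]
    simp
  let φ : opn (fun e => ω (sh u e)) ≃g opn ω :=
    ⟨Equiv.addRight u, fun {a b} => (hadj a b).symm⟩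
  exact (SimpleGraph.Iso.reachable_iff (φ := φ) (u := a) (v := b)).symm

theorem cl_int (p : NNReal) (hp : p ≤ 1) (Λ : Finset (Fin d → ℤ)) (x : Fin d → ℤ) :
    ∫ U, psi (cl Λ (rel U p) x).card ∂(mu d) = ∫ ω, psi (cn ω Λ x) ∂(P d p hp) := by
  let T : ((Fin d → ℤ) × Fin d → Bool) → ((Fin d → ℤ) × Fin d → Bool) := fun ω e => ω (sh x e)
  have hT : Measurable T := measurable_pi_iff.2 fun e => measurable_pi_apply _
  have hmap : (P d p hp).map T = P d p hp :=
    MeasureTheory.Measure.map_infinitePi_infinitePi_of_inj (sh x).injective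
  have h1 : ∀ U : (Fin d → ℤ) × Fin d → ℝ, (cl Λ (rel U p) x).card = cn (T (conf p U)) Λ x := by
    intro U
    unfold cn
    congr 1
    ext y
    rw [mem_cl, mem_cl]
    refine and_congr_right fun _ => ?_
    show (opn (conf p U)).Reachable x y ↔ (opn (T (conf p U))).Reachable 0 (y - x)
    rw [reach_sh]
    simp
  simp_rw [h1]
  have h2 : Measurable fun ω : (Fin d → ℤ) × Fin d → Bool => psi (cn ω Λ x) :=
    psi_meas.comp (cn_meas Λ x)
  have h3 : Measurable fun ω : (Fin d → ℤ) × Fin d → Bool => psi (cn (T ω) Λ x) := h2.comp hT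
  conv_rhs => rw [← hmap]
  rw [integral_map hT.aemeasurable h2.aestronglyMeasurable, ← map_conf p hp,
    integral_map (conf_meas p).aemeasurable h3.aestronglyMeasurable]

theorem cn_le_card (ω : (Fin d → ℤ) × Fin d → Bool) (Λ : Finset (Fin d → ℤ)) (x : Fin d → ℤ) :
    cn ω Λ x ≤ Λ.card := by
  unfold cn
  exact Finset.card_le_card fun y hy => (mem_cl.1 hy).1

theorem cn_le (ω : (Fin d → ℤ) × Fin d → Bool) (h : Set.Finite {y | (opn ω).Reachable 0 y})
    (Λ : Finset (Fin d → ℤ)) (x : Fin d → ℤ) : cn ω Λ x ≤ nc ω 0 := by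
  unfold nc cn
  have h0 : Nat.card {y // (opn ω).Reachable 0 y} =
    Set.ncard {y | (opn ω).Reachable 0 y} := Nat.card_coe_set_eq _
  rw [h0, ← Set.ncard_coe_finset]
  refine Set.ncard_le_ncard_of_injOn (fun y => y - x) ?_ ?_ h
  · intro y hy
    exact (mem_cl.1 hy).2
  · intro y _ z _ hyz
    simpa using hyz

/-- the mean over the box -/
noncomputable def gN (N : ℕ) (ω : (Fin d → ℤ) × Fin d → Bool) : ℝ :=
  (∑ x ∈ box d N, psi (cn ω (box d N) x)) / (N : ℝ) ^ d

theorem gN_meas (N : ℕ) : Measurable (gN (d := d) N) := by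
  unfold gN
  exact (Finset.measurable_fun_sum _ fun x _ => psi_meas.comp (cn_meas _ x)).div_const _

theorem gN_nonneg (N : ℕ) (ω : (Fin d → ℤ) × Fin d → Bool) : 0 ≤ gN N ω := by
  unfold gN
  exact div_nonneg (Finset.sum_nonneg fun x _ => psi_nonneg _) (by positivity)

theorem gN_le (N : ℕ) (hN : 0 < N) (ω : (Fin d → ℤ) × Fin d → Bool)
    (h : Set.Finite {y | (opn ω).Reachable 0 y}) : gN N ω ≤ psi (nc ω 0) := by
  unfold gN
  have hNp : (0 : ℝ) < (N : ℝ) ^ d := by positivity
  rw [div_le_iff₀ hNp]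
  refine (Finset.sum_le_sum fun x _ => psi_mono (cn_le ω h (box d N) x)).trans_eq ?_
  rw [Finset.sum_const, nsmul_eq_mul, box_card, mul_comm]

theorem gN_ge (N : ℕ) (hN : 0 < N) (ω : (Fin d → ℤ) × Fin d → Bool)
    (h : Set.Finite {y | (opn ω).Reachable 0 y}) :
    psi (nc ω 0) * (1 - ∑ z ∈ h.toFinset, (1 - prop N z)) ≤ gN N ω := by
  classical
  have hNp : (0 : ℝ) < (N : ℝ) ^ d := by positivity
  set C := h.toFinset with hC
  have hnc : nc ω 0 = C.card := by
    unfold nc
    have h0 : Nat.card {y // (opn ω).Reachable 0 y} =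
      Set.ncard {y | (opn ω).Reachable 0 y} := Nat.card_coe_set_eq _
    rw [h0, hC, Set.ncard_eq_toFinset_card _ h]
  have hcn : ∀ x, cn ω (box d N) x = ∑ z ∈ C, if x + z ∈ box d N then 1 else 0 := by
    intro x
    unfold cn
    rw [← Finset.card_filter]
    refine Finset.card_bij' (fun y _ => y - x) (fun z _ => x + z) ?_ ?_ ?_ ?_
    · intro y hy
      rw [mem_cl] at hy
      rw [Finset.mem_filter, hC, Set.Finite.mem_toFinset]
      exact ⟨hy.2, by simpa using hy.1⟩
    · intro z hz
      rw [Finset.mem_filter, hC, Set.Finite.mem_toFinset] at hz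
      rw [mem_cl]
      refine ⟨hz.2, ?_⟩
      have := hz.1
      simpa using this
    · intro y _; simp
    · intro z _; simp
  have hx : ∀ x, psi (nc ω 0) * (1 - ∑ z ∈ C, (1 - if x + z ∈ box d N then (1 : ℝ) else 0)) ≤
      psi (cn ω (box d N) x) := by
    intro x
    have e1 : ∑ z ∈ C, (1 - if x + z ∈ box d N then (1 : ℝ) else 0) =
        (nc ω 0 : ℝ) - cn ω (box d N) x := by
      rw [Finset.sum_sub_distrib, hcn x, hnc]
      push_cast
      simp
    rw [e1]
    have hle := cn_le ω h (box d N) x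
    rcases hle.lt_or_eq with hlt | heq
    · have : (cn ω (box d N) x : ℝ) + 1 ≤ nc ω 0 := by exact_mod_cast hlt
      have h1 := psi_nonneg (nc ω 0)
      have h2 := psi_nonneg (cn ω (box d N) x)
      nlinarith
    · rw [heq]; simp
  have hprop : ∀ z, prop N z * (N : ℝ) ^ d = ∑ x ∈ box d N, if x + z ∈ box d N then (1 : ℝ) else 0 := by
    intro z
    unfold prop
    rw [div_mul_cancel₀ _ hNp.ne', Finset.card_filter]
    push_cast
    rfl
  unfold gN
  rw [le_div_iff₀ hNp]
  refine le_trans (le_of_eq ?_) (Finset.sum_le_sum fun x _ => hx x)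
  rw [← Finset.mul_sum, mul_assoc]
  congr 1
  have e3 : ∑ x ∈ box d N, (1 - ∑ z ∈ C, (1 - if x + z ∈ box d N then (1 : ℝ) else 0)) =
      ∑ x ∈ box d N, (1 : ℝ) -
        ∑ x ∈ box d N, ∑ z ∈ C, (1 - if x + z ∈ box d N then (1 : ℝ) else 0) :=
    Finset.sum_sub_distrib _ _
  rw [e3, Finset.sum_comm]
  have e2 : ∀ z ∈ C, ∑ x ∈ box d N, (1 - if x + z ∈ box d N then (1 : ℝ) else 0) =
      (N : ℝ) ^ d * (1 - prop N z) := by
    intro z _
    rw [Finset.sum_sub_distrib, ← hprop z, Finset.sum_const, nsmul_eq_mul, box_card]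
    ring
  rw [Finset.sum_congr rfl e2, ← Finset.mul_sum, Finset.sum_const, nsmul_eq_mul, box_card]
  ring

theorem gN_tendsto (ω : (Fin d → ℤ) × Fin d → Bool)
    (h : Set.Finite {y | (opn ω).Reachable 0 y}) :
    Tendsto (fun N : ℕ => gN N ω) atTop (𝓝 (psi (nc ω 0))) := by
  have hlow : Tendsto (fun N : ℕ => psi (nc ω 0) * (1 - ∑ z ∈ h.toFinset, (1 - prop N z))) atTop
      (𝓝 (psi (nc ω 0) * (1 - ∑ z ∈ h.toFinset, (1 - 1)))) := by
    refine Tendsto.const_mul _ (tendsto_const_nhds.sub ?_)
    exact tendsto_finsetSum _ fun z _ => tendsto_const_nhds.sub (prop_tendsto z)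
  simp only [sub_self, Finset.sum_const_zero, sub_zero, mul_one] at hlow
  refine tendsto_of_tendsto_of_tendsto_of_le_of_le' hlow tendsto_const_nhds ?_ ?_
  · filter_upwards [eventually_gt_atTop 0] with N hN
    exact gN_ge N hN ω h
  · filter_upwards [eventually_gt_atTop 0] with N hN
    exact gN_le N hN ω h

theorem cl_psi_int (p : NNReal) (Λ : Finset (Fin d → ℤ)) (x : Fin d → ℤ) :
    Integrable (fun U : (Fin d → ℤ) × Fin d → ℝ => psi (cl Λ (rel U p) x).card) (mu d) := by
  classical
  have hcm : Measurable fun U : (Fin d → ℤ) × Fin d → ℝ => (cl Λ (rel U p) x).card := by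
    have : (fun U : (Fin d → ℤ) × Fin d → ℝ => (cl Λ (rel U p) x).card) =
        fun U => ∑ y ∈ Λ, if rel U p x y then 1 else 0 := by
      funext U
      unfold cl
      rw [Finset.card_filter]
    rw [this]
    refine Finset.measurable_fun_sum _ fun y _ => ?_
    exact Measurable.ite (rel_meas p x y) measurable_const measurable_const
  refine Integrable.of_bound (psi_meas.comp hcm).aestronglyMeasurable
    (psi Λ.card) (Eventually.of_forall fun U => ?_)
  rw [Real.norm_eq_abs]
  show |psi (cl Λ (rel U p) x).card| ≤ _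
  rw [abs_of_nonneg (psi_nonneg _)]
  exact psi_mono (Finset.card_le_card (Finset.filter_subset _ _))

theorem lim_psi (p : NNReal) (hp : p ≤ 1) (hs : Summable (tau d p hp)) :
    Tendsto (fun N : ℕ => (∫ U, ∑ x ∈ box d N, psi (cl (box d N) (rel U p) x).card ∂(mu d)) /
      (N : ℝ) ^ d) atTop (𝓝 (Psi d p hp)) := by
  have h1 : ∀ N : ℕ, (∫ U, ∑ x ∈ box d N, psi (cl (box d N) (rel U p) x).card ∂(mu d)) /
      (N : ℝ) ^ d = ∫ ω, gN N ω ∂(P d p hp) := by
    intro N
    rw [integral_finsetSum _ fun x _ => cl_psi_int p _ x]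
    simp_rw [fun x => cl_int p hp (box d N) x]
    unfold gN
    rw [integral_div, integral_finsetSum]
    intro x _
    refine Integrable.of_bound (psi_meas.comp (cn_meas _ x)).aestronglyMeasurable
      (psi (box d N).card) (Eventually.of_forall fun ω => ?_)
    rw [Real.norm_eq_abs]
    show |psi (cn ω (box d N) x)| ≤ _
    rw [abs_of_nonneg (psi_nonneg _)]
    exact psi_mono (cn_le_card ω _ x)
  simp_rw [h1]
  unfold Psi
  have hfin := fin_ae p hp hs (0 : Fin d → ℤ)
  refine tendsto_integral_of_dominated_convergence (fun ω => psi (nc ω 0))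
    (fun N => (gN_meas N).aestronglyMeasurable) (psi_int p hp hs 0) (fun N => ?_) ?_
  · rcases Nat.eq_zero_or_pos N with hN | hN
    · filter_upwards [hfin] with ω hω
      subst hN
      rw [Real.norm_eq_abs, abs_of_nonneg (gN_nonneg _ _)]
      rcases Nat.eq_zero_or_pos d with hd | hd
      · unfold gN
        subst hd
        simp only [pow_zero, div_one]
        refine (Finset.sum_le_sum fun x _ => psi_mono (cn_le ω hω _ x)).trans ?_
        rw [Finset.sum_const, nsmul_eq_mul]
        have : ((box 0 0).card : ℝ) = 1 := by rw [box_card]; simp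
        rw [this, one_mul]
      · unfold gN
        have : (box d 0) = ∅ := by
          rw [← Finset.card_eq_zero]
          have h := box_card d 0
          rw [Nat.cast_zero, zero_pow (by omega)] at h
          exact_mod_cast h
        rw [this]
        simp [psi_nonneg]
    · filter_upwards [hfin] with ω hω
      rw [Real.norm_eq_abs, abs_of_nonneg (gN_nonneg _ _)]
      exact gN_le N hN ω hω
  · filter_upwards [hfin] with ω hω
    exact gN_tendsto ω hω

end Pool.Agent.Helper26.IR
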