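import Pool.Agent.Helper26.IR.Lim

set_option autoImplicit false
set_option linter.unusedSectionVars false

/-! The maximal inequality for the Fourier transforms of the two-point functions between two
parameters. -/

open MeasureTheory Filter Topology
open Pool.Agent.Results.MP_54f242_pr.InfraredMean
open Pool.Agent.Helper33P

namespace Pool.Agent.Helper26.IR

variable {d : ℕ}

/-- the maximal inequality for finitely many parameters -/
theorem max_fin' (p₀ p : NNReal) (hp₀ : p₀ ≤ 1) (h01 : p₀ ≤ p) (hp : p ≤ 1)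
    (hs₀ : Summable (tau d p₀ hp₀)) (hs : Summable (tau d p hp)) (M : Finset (Par d))
    (hM : M.Nonempty) (hM0 : ∀ a ∈ M, p₀ ≤ a.1) (hMp : ∀ a ∈ M, a.1 ≤ p) :
    ∫ k in cube d, M.sup' hM (fun a => cs (tf a) k) ≤
      (2 * Real.pi) ^ d * (2 + 52 * (Psi d p hp - Psi d p₀ hp₀)) := by
  classical
  have hfm : IsFiniteMeasure (volume.restrict (cube d)) := ⟨by simpa using cube_fin⟩
  have hab : ∀ a : Par d, Summable fun x => |tf a x| := fun a => by
    simp_rw [fun x => abs_of_nonneg (tf_nonneg a x)]; exact tf_sum a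
  have hle : ∀ a ∈ M, ∀ x, tf a x ≤ tau d p hp x := fun a ha x => tau_mono _ _ _ _ (hMp a ha) x
  have hch : ∀ a ∈ M, ∑' x, |tf a x| ≤ chi d p hp := by
    intro a ha
    refine (hab a).tsum_le_tsum (fun x => ?_) hs
    rw [abs_of_nonneg (tf_nonneg a x)]
    exact hle a ha x
  have hcont : ∀ N : ℕ, Continuous fun k => M.sup' hM (fun a => av N (tf a) k) := fun N =>
    Continuous.finset_sup'_apply hM fun a _ => av_cont N (tf a)
  have hlim : Tendsto (fun N : ℕ => ∫ k in cube d, M.sup' hM (fun a => av N (tf a) k)) atTop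
      (𝓝 (∫ k in cube d, M.sup' hM (fun a => cs (tf a) k))) := by
    refine tendsto_integral_of_dominated_convergence (fun _ => chi d p hp)
      (fun N => (hcont N).aestronglyMeasurable) (integrable_const _) (fun N => ?_) ?_
    · refine Eventually.of_forall fun k => ?_
      rw [Real.norm_eq_abs, abs_le]
      obtain ⟨a, ha⟩ := hM
      constructor
      · have h1 := (abs_le.1 ((av_abs N (tf a) (hab a) k).trans (hch a ha))).1
        exact h1.trans (Finset.le_sup' (fun a => av N (tf a) k) ha)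
      · refine Finset.sup'_le _ _ fun b hb => ?_
        exact (abs_le.1 ((av_abs N (tf b) (hab b) k).trans (hch b hb))).2
    · refine Eventually.of_forall fun k => ?_
      exact Tendsto.finset_sup'_nhds_apply hM fun a _ => av_tendsto (tf a) (hab a) k
  let R : ℕ → ℝ := fun N => (∫ U, ∑ x ∈ box d N, psi (cl (box d N) (rel U p) x).card ∂(mu d)) /
      (N : ℝ) ^ d
  let R₀ : ℕ → ℝ := fun N => (∫ U, ∑ x ∈ box d N, psi (cl (box d N) (rel U p₀) x).card ∂(mu d)) /
      (N : ℝ) ^ d
  have hR : Tendsto (fun N => (2 * Real.pi) ^ d * (2 + 52 * (R N - R₀ N))) atTop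
      (𝓝 ((2 * Real.pi) ^ d * (2 + 52 * (Psi d p hp - Psi d p₀ hp₀)))) :=
    (tendsto_const_nhds.add (((lim_psi p hp hs).sub (lim_psi p₀ hp₀ hs₀)).const_mul 52)).const_mul _
  refine le_of_tendsto_of_tendsto hlim hR ?_
  filter_upwards [eventually_gt_atTop 0] with N hN
  have hNp : (0 : ℝ) < (N : ℝ) ^ d := by positivity
  obtain ⟨h, hc, h1, h2⟩ := finite_max' (box d N) (M.image fun a => a.1) p₀ p h01
    (by intro t ht
        rw [Finset.mem_image] at ht
        obtain ⟨a, ha, rfl⟩ := ht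
        exact hM0 a ha)
    (by intro t ht
        rw [Finset.mem_image] at ht
        obtain ⟨a, ha, rfl⟩ := ht
        exact hMp a ha)
    (by intro t ht
        rw [Finset.mem_image] at ht
        obtain ⟨a, ha, rfl⟩ := ht
        exact (hMp a ha).trans hp)
  have h3 : ∀ k, M.sup' hM (fun a => av N (tf a) k) ≤ h k / (N : ℝ) ^ d := by
    intro k
    refine Finset.sup'_le _ _ fun a ha => ?_
    unfold av
    refine div_le_div_of_nonneg_right ?_ hNp.le
    exact h1 a.1 (Finset.mem_image_of_mem _ ha) k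
  have h4 : ∫ k in cube d, M.sup' hM (fun a => av N (tf a) k) ≤
      ∫ k in cube d, h k / (N : ℝ) ^ d :=
    integral_mono (integrable_of_cont (hcont N)) (integrable_of_cont (hc.div_const _)) h3
  refine h4.trans ?_
  rw [integral_div, div_le_iff₀ hNp]
  refine h2.trans (le_of_eq ?_)
  have h5 : ∫ U, ∑ x ∈ box d N, (2 + 52 * (psi (cl (box d N) (rel U p) x).card -
      psi (cl (box d N) (rel U p₀) x).card)) ∂(mu d) =
      (N : ℝ) ^ d * 2 + 52 * ((∫ U, ∑ x ∈ box d N, psi (cl (box d N) (rel U p) x).card ∂(mu d)) -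
        ∫ U, ∑ x ∈ box d N, psi (cl (box d N) (rel U p₀) x).card ∂(mu d)) := by
    have hi1 : Integrable (fun U : (Fin d → ℤ) × Fin d → ℝ =>
        ∑ x ∈ box d N, psi (cl (box d N) (rel U p) x).card) (mu d) :=
      integrable_finsetSum _ fun x _ => cl_psi_int p _ x
    have hi0 : Integrable (fun U : (Fin d → ℤ) × Fin d → ℝ =>
        ∑ x ∈ box d N, psi (cl (box d N) (rel U p₀) x).card) (mu d) :=
      integrable_finsetSum _ fun x _ => cl_psi_int p₀ _ x
    have e1 : ∀ U : (Fin d → ℤ) × Fin d → ℝ,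
        ∑ x ∈ box d N, (2 + 52 * (psi (cl (box d N) (rel U p) x).card -
          psi (cl (box d N) (rel U p₀) x).card)) =
        (N : ℝ) ^ d * 2 + 52 * ((∑ x ∈ box d N, psi (cl (box d N) (rel U p) x).card) -
          ∑ x ∈ box d N, psi (cl (box d N) (rel U p₀) x).card) := by
      intro U
      rw [Finset.sum_add_distrib, Finset.sum_const, nsmul_eq_mul, box_card, ← Finset.mul_sum,
        Finset.sum_sub_distrib]
    have hi2 : Integrable (fun U : (Fin d → ℤ) × Fin d → ℝ => 52 *
        ((∑ x ∈ box d N, psi (cl (box d N) (rel U p) x).card) -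
          ∑ x ∈ box d N, psi (cl (box d N) (rel U p₀) x).card)) (mu d) :=
      (hi1.sub hi0).const_mul 52
    simp_rw [e1]
    rw [integral_add (integrable_const _) hi2, integral_const, integral_const_mul,
      integral_sub hi1 hi0]
    simp
  rw [h5]
  show _ = (2 * Real.pi) ^ d * (2 + 52 * ((∫ U, ∑ x ∈ box d N,
    psi (cl (box d N) (rel U p) x).card ∂(mu d)) / (N : ℝ) ^ d - (∫ U, ∑ x ∈ box d N,
    psi (cl (box d N) (rel U p₀) x).card ∂(mu d)) / (N : ℝ) ^ d)) * (N : ℝ) ^ d
  have : ∀ (X Y A D : ℝ), 0 < D → A * (D * 2 + 52 * (X - Y)) =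
      A * (2 + 52 * (X / D - Y / D)) * D := by
    intro X Y A D hD
    field_simp
  exact this _ _ _ _ hNp

/-- the majorant of all the parameters from `p₀` to `p` -/
theorem majorant' (p₀ p : NNReal) (hp₀ : p₀ ≤ 1) (h01 : p₀ ≤ p) (hp : p ≤ 1)
    (hs : Summable (tau d p hp)) :
    ∃ W : (Fin d → ℝ) → ℝ, Continuous W ∧
      (∀ (q : NNReal) (hq : q ≤ 1), p₀ ≤ q → q ≤ p → ∀ k, cs (tau d q hq) k ≤ W k) ∧
      ∫ k in cube d, W k ≤
        (2 * Real.pi) ^ d * (3 + 52 * (Psi d p hp - Psi d p₀ hp₀)) := by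
  classical
  have hfm : IsFiniteMeasure (volume.restrict (cube d)) := ⟨by simpa using cube_fin⟩
  have hsq : ∀ (q : NNReal) (hq : q ≤ 1), q ≤ p → Summable (tau d q hq) := fun q hq h =>
    Summable.of_nonneg_of_le (tau_nonneg q hq) (fun x => tau_mono q p hq hp h x) hs
  let mk : ∀ q : NNReal, q ≤ p → Par d := fun q h => ⟨q, h.trans hp, hsq q _ h⟩
  let a₀ : Par d := mk p le_rfl
  let Q : ℕ → Par d → Prop := fun j a => (p₀ ≤ a.1 ∧ a.1 ≤ p) ∧ (j : ℝ) ≤ ch a ∧ ch a ≤ j + 1
  let pick : ℕ → Par d := fun j => if h : ∃ a, Q j a then h.choose else a₀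
  have hpick : ∀ j, p₀ ≤ (pick j).1 ∧ (pick j).1 ≤ p := by
    intro j
    simp only [pick]
    split_ifs with h
    · exact h.choose_spec.1
    · exact ⟨h01, le_rfl⟩
  let M : Finset (Par d) := (Finset.range (⌊chi d p hp⌋₊ + 1)).image pick
  have hMp : ∀ a ∈ M, p₀ ≤ a.1 ∧ a.1 ≤ p := by
    intro a ha
    obtain ⟨j, _, rfl⟩ := Finset.mem_image.1 ha
    exact hpick j
  have hM : M.Nonempty := ⟨pick 0, Finset.mem_image_of_mem _ (Finset.mem_range.2 (by omega))⟩
  have hcont : Continuous fun k => M.sup' hM (fun a => cs (tf a) k) :=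
    Continuous.finset_sup'_apply hM fun a _ => tf_cont a
  refine ⟨fun k => 1 + M.sup' hM (fun a => cs (tf a) k), continuous_const.add hcont, ?_, ?_⟩
  · intro q hq hq0 hqp k
    let b : Par d := mk q hqp
    have hb : cs (tau d q hq) k = cs (tf b) k := rfl
    have hb1 : 1 ≤ ch b := ch_ge b
    have hb2 : ch b ≤ chi d p hp :=
      (hsq q hq hqp).tsum_le_tsum (fun x => tau_mono q p hq hp hqp x) hs
    set j := ⌊ch b⌋₊ with hj
    have hj1 : (j : ℝ) ≤ ch b := Nat.floor_le (by linarith)
    have hj2 : ch b ≤ (j : ℝ) + 1 := (Nat.lt_floor_add_one _).le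
    have hex : ∃ a, Q j a := ⟨b, ⟨hq0, hqp⟩, hj1, hj2⟩
    have hpj : pick j = hex.choose := by simp only [pick, dif_pos hex]
    have hQ : Q j (pick j) := by rw [hpj]; exact hex.choose_spec
    have hmem : pick j ∈ M :=
      Finset.mem_image_of_mem _ (Finset.mem_range.2 (Nat.lt_succ_iff.2 (Nat.floor_le_floor hb2)))
    have hclose : |cs (tf b) k - cs (tf (pick j)) k| ≤ 1 := by
      rcases le_total (ch b) (ch (pick j)) with h | h
      · rw [abs_sub_comm]
        exact (cs_diff h k).trans (by linarith [hQ.2.2])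
      · exact (cs_diff h k).trans (by linarith [hQ.2.1])
    have h1 := (abs_le.1 hclose).2
    have h2 := Finset.le_sup' (fun a => cs (tf a) k) hmem
    rw [hb]
    linarith
  · rw [integral_add (integrable_const _) (integrable_of_cont hcont)]
    have h1 := max_fin' p₀ p hp₀ h01 hp (hsq p₀ hp₀ h01) hs M hM (fun a ha => (hMp a ha).1)
      (fun a ha => (hMp a ha).2)
    have h2 : ∫ _ in cube d, (1 : ℝ) = (2 * Real.pi) ^ d := by
      rw [integral_const, smul_eq_mul, mul_one, measureReal_restrict_apply_univ, Measure.real,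
        cube_vol, ENNReal.toReal_ofReal (by positivity)]
    rw [h2]
    linarith

end Pool.Agent.Helper26.IR
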