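import Pool.Agent.Helper26.IR.Chain

set_option autoImplicit false
set_option linter.unusedSectionVars false

/-! The maximal inequality in a finite set for the parameters between two of them, and the limit of
the mean of a function of the size of the cluster in a box. -/

open MeasureTheory Filter Topology
open Pool.Agent.Results.MP_54f242_pr.InfraredMean
open Pool.Agent.Helper33P

namespace Pool.Agent.Helper26.IR

variable {d : ℕ}

section
variable {τ : Type*} [LinearOrder τ]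

/-- the majorant for a chain of partitions -/
noncomputable def HB (Λ : Finset (Fin d → ℤ)) (M : Finset τ)
    (r : τ → (Fin d → ℤ) → (Fin d → ℤ) → Prop) (t₀ t₁ : τ) (k : Fin d → ℝ) : ℝ :=
  ∑ x ∈ Λ, gb M (fun t => cl Λ (r t) x) (cl Λ (r t₀) x).card (cl Λ (r t₁) x).card k

theorem HB_cont (Λ : Finset (Fin d → ℤ)) (M : Finset τ)
    (r : τ → (Fin d → ℤ) → (Fin d → ℤ) → Prop) (t₀ t₁ : τ) : Continuous (HB Λ M r t₀ t₁) := by
  unfold HB
  exact continuous_finsetSum _ fun x _ => gb_cont _ _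

theorem cl_chain (Λ : Finset (Fin d → ℤ)) {r : τ → (Fin d → ℤ) → (Fin d → ℤ) → Prop}
    (hm : ∀ s t, s ≤ t → ∀ x y, r s x y → r t x y) (x : Fin d → ℤ) :
    Monotone fun t => cl Λ (r t) x := by
  intro s s' h y hy
  rw [mem_cl] at hy ⊢
  exact ⟨hy.1, hm s s' h x y hy.2⟩

theorem qf_le_HB (Λ : Finset (Fin d → ℤ)) {M : Finset τ}
    {r : τ → (Fin d → ℤ) → (Fin d → ℤ) → Prop} (hr : ∀ t, Equivalence (r t))
    (hm : ∀ s t, s ≤ t → ∀ x y, r s x y → r t x y) {t₀ t₁ t : τ} (ht : t ∈ M) (h0 : t₀ ≤ t)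
    (h1 : t ≤ t₁) (k : Fin d → ℝ) : qf Λ (r t) k ≤ HB Λ M r t₀ t₁ k := by
  rw [qf_eq Λ (hr t)]
  refine Finset.sum_le_sum fun x hx => ?_
  have hne : ∀ t, (cl Λ (r t) x).card ≠ 0 := fun t =>
    (Finset.card_pos.2 ⟨x, mem_cl.2 ⟨hx, (hr t).refl x⟩⟩).ne'
  exact le_gb (B := fun t => cl Λ (r t) x) (cl_chain Λ hm x) ht h0 h1 (hne t₀) k

theorem int_HB (Λ : Finset (Fin d → ℤ)) {M : Finset τ}
    {r : τ → (Fin d → ℤ) → (Fin d → ℤ) → Prop} (hr : ∀ t, Equivalence (r t))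
    (hm : ∀ s t, s ≤ t → ∀ x y, r s x y → r t x y) {t₀ t₁ : τ} (ht : t₀ ∈ M) (h0 : t₀ ≤ t₁)
    (h1 : ∀ t ∈ M, t ≤ t₁) :
    ∫ k in cube d, HB Λ M r t₀ t₁ k ≤ (2 * Real.pi) ^ d *
      ∑ x ∈ Λ, (2 + 52 * (psi (cl Λ (r t₁) x).card - psi (cl Λ (r t₀) x).card)) := by
  unfold HB
  rw [integral_finsetSum _ fun x _ => integrable_of_cont (gb_cont _ _), Finset.mul_sum]
  refine Finset.sum_le_sum fun x hx => ?_
  have hne : (cl Λ (r t₀) x).card ≠ 0 :=
    (Finset.card_pos.2 ⟨x, mem_cl.2 ⟨hx, (hr t₀).refl x⟩⟩).ne'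
  exact int_gb (B := fun t => cl Λ (r t) x) (cl_chain Λ hm x) ht h0 h1 hne

end

theorem finite_max' (Λ : Finset (Fin d → ℤ)) (M : Finset NNReal) (p₀ p₁ : NNReal) (h01 : p₀ ≤ p₁)
    (hM0 : ∀ t ∈ M, p₀ ≤ t) (hM : ∀ t ∈ M, t ≤ p₁) (hM1 : ∀ t ∈ M, t ≤ 1) :
    ∃ h : (Fin d → ℝ) → ℝ, Continuous h ∧ (∀ t (ht : t ∈ M) (k : Fin d → ℝ),
      ∑ x ∈ Λ, ∑ y ∈ Λ, tau d t (hM1 t ht) (y - x) * Real.cos (dot k (y - x)) ≤ h k) ∧
      ∫ k in cube d, h k ≤ (2 * Real.pi) ^ d *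
        ∫ U, ∑ x ∈ Λ, (2 + 52 * (psi (cl Λ (rel U p₁) x).card - psi (cl Λ (rel U p₀) x).card))
          ∂(mu d) := by
  classical
  let M' : Finset NNReal := insert p₀ (insert p₁ M)
  let I := {t // t ∈ M'} × {x // x ∈ Λ} × {y // y ∈ Λ}
  let A : I → Set ((Fin d → ℤ) × Fin d → ℝ) := fun i => {U | rel U i.1.1 i.2.1.1 i.2.2.1}
  obtain ⟨D, hD, w, U, hw, hrep⟩ := finite_repr (mu d) A (fun i => rel_meas _ _ _)
  have hcl : ∀ a b : (Fin d → ℤ) × Fin d → ℝ, (∀ i, a ∈ A i ↔ b ∈ A i) → ∀ t ∈ M',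
      ∀ x ∈ Λ, ∀ y ∈ Λ, rel a t x y ↔ rel b t x y := by
    intro a b hab t ht x hx y hy
    exact hab ⟨⟨t, ht⟩, ⟨x, hx⟩, ⟨y, hy⟩⟩
  have hm0 : p₀ ∈ M' := Finset.mem_insert_self _ _
  have hm1 : p₁ ∈ M' := Finset.mem_insert_of_mem (Finset.mem_insert_self _ _)
  have hmM : ∀ t ∈ M, t ∈ M' := fun t ht =>
    Finset.mem_insert_of_mem (Finset.mem_insert_of_mem ht)
  have hMle : ∀ t ∈ M', t ≤ p₁ := by
    intro t ht
    rcases Finset.mem_insert.1 ht with rfl | ht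
    · exact h01
    · rcases Finset.mem_insert.1 ht with rfl | ht
      · exact le_rfl
      · exact hM t ht
  refine ⟨fun k => ∑ δ, w δ * HB Λ M' (rel (U δ)) p₀ p₁ k, ?_, ?_, ?_⟩
  · refine continuous_finsetSum _ fun δ _ => ?_
    exact continuous_const.mul (HB_cont _ _ _ _ _)
  · intro t ht k
    rw [← qf_int t (hM1 t ht) Λ k, hrep (fun V => qf Λ (rel V t) k)]
    · refine Finset.sum_le_sum fun δ _ => mul_le_mul_of_nonneg_left ?_ (hw δ)
      exact qf_le_HB Λ (rel_equiv (U δ)) (fun s t h x y => rel_mono (U δ) s t h x y) (hmM t ht)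
        (hM0 t ht) (hM t ht) k
    · intro a b hab
      unfold qf
      refine Finset.sum_congr rfl fun x hx => Finset.sum_congr rfl fun y hy => ?_
      simp only [hcl a b hab t (hmM t ht) x hx y hy]
  · have hI : ∀ δ, Integrable (fun k => w δ * HB Λ M' (rel (U δ)) p₀ p₁ k)
        (volume.restrict (cube d)) := fun δ =>
      integrable_of_cont (continuous_const.mul (HB_cont _ _ _ _ _))
    rw [integral_finsetSum _ fun δ _ => hI δ,
      hrep (fun V => ∑ x ∈ Λ, (2 + 52 * (psi (cl Λ (rel V p₁) x).card -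
        psi (cl Λ (rel V p₀) x).card))),
      Finset.mul_sum]
    · refine Finset.sum_le_sum fun δ _ => ?_
      rw [integral_const_mul]
      have h1 := int_HB Λ (M := M') (r := rel (U δ)) (rel_equiv (U δ))
        (fun s t h x y => rel_mono (U δ) s t h x y) hm0 h01 hMle
      calc w δ * ∫ k in cube d, HB Λ M' (rel (U δ)) p₀ p₁ k
          ≤ w δ * ((2 * Real.pi) ^ d *
            ∑ x ∈ Λ, (2 + 52 * (psi (cl Λ (rel (U δ) p₁) x).card -
              psi (cl Λ (rel (U δ) p₀) x).card))) :=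
            mul_le_mul_of_nonneg_left h1 (hw δ)
        _ = _ := by ring
    · intro a b hab
      refine Finset.sum_congr rfl fun x hx => ?_
      have hc : ∀ p ∈ M', cl Λ (rel a p) x = cl Λ (rel b p) x := by
        intro p hp
        ext y
        rw [mem_cl, mem_cl]
        constructor
        · rintro ⟨hy, h⟩
          exact ⟨hy, (hcl a b hab p hp x hx y hy).1 h⟩
        · rintro ⟨hy, h⟩
          exact ⟨hy, (hcl a b hab p hp x hx y hy).2 h⟩
      rw [hc p₀ hm0, hc p₁ hm1]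

/-! ### the mean over a box -/

/-- `E_p ∑_{m ≤ |C(0)|} (1 + [log₂ m])² / m` -/
noncomputable def Psi (d : ℕ) (p : NNReal) (hp : p ≤ 1) : ℝ :=
  ∫ ω, psi (nc ω 0) ∂(P d p hp)

theorem psi_meas : Measurable psi := measurable_of_countable _

theorem psi_int (p : NNReal) (hp : p ≤ 1) (hs : Summable (tau d p hp)) (x : Fin d → ℤ) :
    Integrable (fun ω => psi (nc ω x)) (P d p hp) := by
  refine Integrable.mono' ((Nr_int p hp hs x).const_mul 9)
    (psi_meas.comp (nc_meas x)).aestronglyMeasurable (Eventually.of_forall fun ω => ?_)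
  rw [Real.norm_eq_abs, abs_of_nonneg (psi_nonneg _)]
  have h1 := psi_le (nc ω x)
  have h2 := nc_le ω x
  linarith

theorem Psi_le (p : NNReal) (hp : p ≤ 1) (hs : Summable (tau d p hp)) :
    Psi d p hp ≤ 36 * (2 + Real.logb 2 (chi d p hp)) ^ 3 := by
  have h1 : Psi d p hp ≤ 2 * Phi d p hp := by
    unfold Psi Phi
    rw [← integral_const_mul]
    exact integral_mono (psi_int p hp hs 0) ((f_int p hp hs 0).const_mul 2)
      fun ω => psi_le' _
  have h2 := Phi_le p hp hs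
  linarith

theorem nc_pos (ω : (Fin d → ℤ) × Fin d → Bool) (x : Fin d → ℤ)
    (h : Set.Finite {y | (opn ω).Reachable x y}) : 1 ≤ nc ω x := by
  have : Finite {y // (opn ω).Reachable x y} := h
  have : Nonempty {y // (opn ω).Reachable x y} := ⟨⟨x, SimpleGraph.Reachable.refl _⟩⟩
  exact Nat.card_pos

theorem one_le_Psi (p : NNReal) (hp : p ≤ 1) (hs : Summable (tau d p hp)) : 1 ≤ Psi d p hp := by
  have h : ∫ ω, (1 : ℝ) ∂(P d p hp) ≤ Psi d p hp := by
    refine integral_mono_ae (integrable_const 1) (psi_int p hp hs 0) ?_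
    filter_upwards [fin_ae p hp hs 0] with ω hω
    have := psi_mono (nc_pos ω 0 hω)
    rw [psi_one] at this
    exact this
  simpa using h

end Pool.Agent.Helper26.IR
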